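import Mathlib
import Pool.Agent.R71.OC.Main

/-!
# Odd covers of `E(K_n) × E(K_n)` by products of complete bipartite graphs

`gt n` is `g̃(n)`, the least number of members of an odd cover.  We prove `⌊n/2⌋² ≤ g̃(n)` for all
`n` (strictly for odd `n ≥ 3`), that `g̃(n) = (n/2)²` whenever `8 ∣ n`, and
`g̃(n) ≤ (4⌈n/8⌉)²`, so that `g̃(n)/n² → 1/4`.
-/

namespace Pool.Agent.Results.MP_cb2837_co.Asymptotics

open Pool.Agent.R71.OC Filter Topology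

theorem result :
    (∀ n : ℕ, 2 ≤ n → (∃ P : Fin (gt n) → Box n, IsOddCover P) ∧
      (∀ m : ℕ, (∃ P : Fin m → Box n, IsOddCover P) → gt n ≤ m)) ∧
    (∀ n : ℕ, 2 ≤ n → (n / 2) ^ 2 ≤ gt n) ∧
    (∀ n : ℕ, 3 ≤ n → Odd n → (n / 2) ^ 2 + 1 ≤ gt n) ∧
    (∀ n : ℕ, 2 ≤ n → gt n ≤ (4 * ((n + 7) / 8)) ^ 2) ∧
    (∀ n : ℕ, 2 ≤ n → 8 ∣ n → gt n = (n / 2) ^ 2) ∧
    Tendsto (fun n : ℕ => (gt n : ℝ) / (n : ℝ) ^ 2) atTop (𝓝 (1 / 4)) := by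
  refine ⟨fun n _ => ⟨gt_mem n, fun m hm => Nat.sInf_le hm⟩, fun n _ => le_gt,
    fun n h3 ho => le_gt_odd ho h3, fun n _ => gt_le n, ?_, tends⟩
  rintro n - ⟨k, rfl⟩
  rw [gt_eight]
  congr 1
  omega

end Pool.Agent.Results.MP_cb2837_co.Asymptotics
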